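import Pool.Agent.N105.LT.Defs

/-! LG/FI (helper971 for helper105): the slice Fisher information of a system. -/

set_option autoImplicit false

open MeasureTheory Set Filter Topology Real
open scoped Matrix

namespace Pool.Agent.N971.LG
open LTd Pool.Agent.N105.LT

/-- The functional under the supremum. -/
noncomputable def ff {n : ℕ} (R S P : Mat n) : ℝ :=
  2 * (S * P * R).trace - (P * R * P * (R * R)).trace

theorem ff_le {n : ℕ} (R S Q : Mat n) (hR : ∀ i j, R i j = R j i)
    (key : ∀ X Y : Mat n,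
      0 ≤ (X * Q * Xᵀ).trace - 2 * (X * S * Yᵀ).trace + (Y * R * Yᵀ).trace)
    (P : Mat n) (hP : ∀ i j, P i j = P j i) : ff R S P ≤ Q.trace := by
  have hRt : Rᵀ = R := by
    ext i j; exact hR j i
  have hPt : Pᵀ = P := by
    ext i j; exact hP j i
  have h := key 1 (R * P)
  have e1 : (R * P)ᵀ = P * R := by rw [Matrix.transpose_mul, hRt, hPt]
  rw [e1] at h
  simp only [Matrix.transpose_one, Matrix.mul_one, Matrix.one_mul] at h
  have e2 : (S * (P * R)).trace = (S * P * R).trace := by rw [Matrix.mul_assoc]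
  have e3 : (R * P * R * (P * R)).trace = (P * R * P * (R * R)).trace := by
    have : R * P * R * (P * R) = R * (P * R * P * R) := by simp only [Matrix.mul_assoc]
    rw [this, Matrix.trace_mul_comm]
    simp only [Matrix.mul_assoc]
  rw [e2, e3] at h
  unfold ff
  linarith

theorem bdd {n : ℕ} (R S Q : Mat n) (hR : ∀ i j, R i j = R j i)
    (key : ∀ X Y : Mat n,
      0 ≤ (X * Q * Xᵀ).trace - 2 * (X * S * Yᵀ).trace + (Y * R * Yᵀ).trace) :
    BddAbove (range fun P : {P : Mat n // ∀ i j, P i j = P j i} => ff R S P.1) := by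
  refine ⟨Q.trace, ?_⟩
  rintro _ ⟨P, rfl⟩
  exact ff_le R S Q hR key P.1 P.2

theorem inst_ne {n : ℕ} : Nonempty {P : Mat n // ∀ i j, P i j = P j i} :=
  ⟨⟨0, fun _ _ => rfl⟩⟩

theorem Fi_eq {n : ℕ} (R S : Mat n) :
    Fi R S = ⨆ P : {P : Mat n // ∀ i j, P i j = P j i}, ff R S P.1 := rfl

/-- The slice Fisher information of a system. -/
theorem fi {n : ℕ} {R S Q : ℝ → Mat n} (h : Sys R S Q) :
    (∀ x, FB (R x) (S x) (Fi (R x) (S x))) ∧ (∀ x, 0 ≤ Fi (R x) (S x)) ∧
    (∀ x, Fi (R x) (S x) ≤ (Q x).trace) ∧ Integrable (fun x => Fi (R x) (S x)) := by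
  have hb : ∀ x, BddAbove
      (range fun P : {P : Mat n // ∀ i j, P i j = P j i} => ff (R x) (S x) P.1) :=
    fun x => bdd (R x) (S x) (Q x) (h.symR x) (h.key x)
  have h1 : ∀ x, FB (R x) (S x) (Fi (R x) (S x)) := by
    intro x P hP
    rw [Fi_eq]
    exact le_ciSup (hb x) ⟨P, hP⟩
  have h2 : ∀ x, 0 ≤ Fi (R x) (S x) := by
    intro x
    have := h1 x 0 (fun _ _ => rfl)
    simpa using this
  have h3 : ∀ x, Fi (R x) (S x) ≤ (Q x).trace := by
    intro x
    rw [Fi_eq]
    haveI : Nonempty {P : Mat n // ∀ i j, P i j = P j i} := inst_ne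
    exact ciSup_le fun P => ff_le (R x) (S x) (Q x) (h.symR x) (h.key x) P.1 P.2
  have cR : Continuous R := by
    refine continuous_matrix fun i j => ?_
    exact continuous_iff_continuousAt.2 fun x => (h.der x i j).continuousAt
  have cS : Continuous S := continuous_matrix fun i j => h.cS i j
  have cQ : Continuous Q := continuous_matrix fun i j => h.cQ i j
  have lsc : LowerSemicontinuous (fun x => Fi (R x) (S x)) := by
    refine lowerSemicontinuous_ciSup (fun x => hb x) fun P => ?_
    refine Continuous.lowerSemicontinuous ?_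
    refine (continuous_const.mul ?_).sub ?_
    · exact ((cS.matrix_mul continuous_const).matrix_mul cR).matrix_trace
    · exact (((continuous_const.matrix_mul cR).matrix_mul continuous_const).matrix_mul
        (cR.matrix_mul cR)).matrix_trace
  have intQ : Integrable (fun x => (Q x).trace) := by
    refine Continuous.integrable_of_hasCompactSupport cQ.matrix_trace ?_
    obtain ⟨M, hM⟩ := h.supp
    refine HasCompactSupport.intro (isCompact_Icc : IsCompact (Icc (-M) M)) ?_
    intro x hx
    have hx' : M < |x| := by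
      by_contra hcon
      exact hx (abs_le.1 (not_lt.1 hcon))
    rw [(hM x hx').2.2]
    simp
  refine ⟨h1, h2, h3, ?_⟩
  refine intQ.mono' lsc.measurable.aestronglyMeasurable ?_
  refine Eventually.of_forall fun x => ?_
  rw [Real.norm_eq_abs, abs_of_nonneg (h2 x)]
  exact h3 x

end Pool.Agent.N971.LG
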